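import Mathlib

/-!
# Edge-magic total labelings of two disjoint cycles: definitions and a covering criterion
-/

set_option autoImplicit false

namespace Pool.Agent.Helper71.EMT

open SimpleGraph

/-- `lam` is an edge-magic total labeling of `G` (with `v` vertices and `e` edges): it is a
bijection from the disjoint union of the vertices and the edges of `G` onto `{1, …, v + e}`, and
for some constant `k` one has `lam x + lam xy + lam y = k` for every edge `xy`. -/
def IsEMTLabeling {V : Type} (G : SimpleGraph V) (lam : V ⊕ G.edgeSet → ℕ) : Prop :=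
  Set.BijOn lam Set.univ (Set.Icc 1 (Nat.card V + Nat.card G.edgeSet)) ∧
  ∃ k : ℕ, ∀ (x y : V) (h : G.Adj x y),
    lam (Sum.inl x) + lam (Sum.inr ⟨s(x, y), h⟩) + lam (Sum.inl y) = k

/-- `G` is edge-magic total: it has an edge-magic total labeling. -/
def IsEdgeMagicTotal {V : Type} (G : SimpleGraph V) : Prop :=
  ∃ lam : V ⊕ G.edgeSet → ℕ, IsEMTLabeling G lam

/-- Transport along a graph isomorphism. -/
theorem IsEdgeMagicTotal.of_iso {V W : Type} {G : SimpleGraph V} {H : SimpleGraph W}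
    (e : G ≃g H) (h : IsEdgeMagicTotal G) : IsEdgeMagicTotal H := by
  obtain ⟨lam, hb, k, hk⟩ := h
  refine ⟨fun x => lam (Sum.map e.symm e.symm.mapEdgeSet x), ?_, k, ?_⟩
  · have h1 : Nat.card V = Nat.card W := Nat.card_congr e.toEquiv
    have h2 : Nat.card G.edgeSet = Nat.card H.edgeSet := Nat.card_congr e.mapEdgeSet
    rw [h1, h2] at hb
    refine hb.comp ?_
    have : Function.Bijective (Sum.map e.symm e.symm.mapEdgeSet) :=
      (Equiv.sumCongr e.symm.toEquiv e.symm.mapEdgeSet).bijective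
    exact Set.bijOn_univ.2 this
  · intro x y hxy
    have h3 : G.Adj (e.symm x) (e.symm y) := (e.symm.map_adj_iff).2 hxy
    exact hk _ _ h3

theorem card_edgeSet_cycleGraph (n : ℕ) (hn : 3 ≤ n) :
    Nat.card (cycleGraph n).edgeSet = n := by
  obtain ⟨k, rfl⟩ := Nat.exists_eq_add_of_le' hn
  have h := (cycleGraph (k + 3)).sum_degrees_eq_twice_card_edges
  simp only [cycleGraph_degree_three_le, Finset.sum_const, Finset.card_univ, Fintype.card_fin,
    smul_eq_mul] at h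
  have h2 : Nat.card (cycleGraph (k + 3)).edgeSet = (cycleGraph (k + 3)).edgeFinset.card := by
    rw [Nat.card_eq_fintype_card, edgeFinset_card]
  omega

theorem card_edgeSet_sum (m n : ℕ) (hm : 3 ≤ m) (hn : 3 ≤ n) :
    Nat.card (cycleGraph m ⊕g cycleGraph n).edgeSet = m + n := by
  rw [Nat.card_congr edgeSetSumEquiv, Nat.card_sum, card_edgeSet_cycleGraph m hm,
    card_edgeSet_cycleGraph n hn]

theorem cycleGraph_adj_succ (m : ℕ) (hm : 3 ≤ m) (i : ℕ) (hi : i < m) :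
    (cycleGraph m).Adj ⟨i, hi⟩ ⟨(i + 1) % m, Nat.mod_lt _ (by omega)⟩ := by
  obtain ⟨k, rfl⟩ := Nat.exists_eq_add_of_le' hm
  rw [cycleGraph_adj]
  right
  rw [sub_eq_iff_eq_add]
  ext
  simp [Fin.val_add, add_comm]

/-- The covering criterion: if every number in `{1, …, 2(m+n)}` is a vertex label or the
complement in `K` of the sum of two consecutive vertex labels, then `C_m ∪ C_n` is edge-magic
total. -/
theorem emt_of_cover (m n K : ℕ) (hm : 3 ≤ m) (hn : 3 ≤ n) (f g : ℕ → ℕ)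
    (h : ∀ L, 1 ≤ L → L ≤ 2 * (m + n) →
      (∃ i < m, f i = L) ∨ (∃ i < n, g i = L) ∨
      (∃ i < m, f i + f ((i + 1) % m) + L = K) ∨ (∃ i < n, g i + g ((i + 1) % n) + L = K)) :
    IsEdgeMagicTotal (cycleGraph m ⊕g cycleGraph n) := by
  classical
  set G := cycleGraph m ⊕g cycleGraph n with hG
  let lv : Fin m ⊕ Fin n → ℕ := Sum.elim (fun i => f i) (fun i => g i)
  let le : Sym2 (Fin m ⊕ Fin n) → ℕ :=
    Sym2.lift ⟨fun x y => K - (lv x + lv y), fun x y => by simp only [add_comm]⟩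
  let lam : (Fin m ⊕ Fin n) ⊕ G.edgeSet → ℕ := Sum.elim lv (fun e => le e.1)
  have hcard : Nat.card (Fin m ⊕ Fin n) + Nat.card G.edgeSet = 2 * (m + n) := by
    rw [card_edgeSet_sum m n hm hn, Nat.card_sum]
    simp
    ring
  have hsurj : Set.Icc 1 (2 * (m + n)) ⊆ Set.range lam := by
    intro L hL
    rcases h L hL.1 hL.2 with ⟨i, hi, h1⟩ | ⟨i, hi, h1⟩ | ⟨i, hi, h1⟩ | ⟨i, hi, h1⟩
    · exact ⟨Sum.inl (Sum.inl ⟨i, hi⟩), h1⟩
    · exact ⟨Sum.inl (Sum.inr ⟨i, hi⟩), h1⟩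
    · have hadj : G.Adj (Sum.inl ⟨i, hi⟩) (Sum.inl ⟨(i + 1) % m, Nat.mod_lt _ (by omega)⟩) :=
        sum_adj_inl.2 (cycleGraph_adj_succ m hm i hi)
      refine ⟨Sum.inr ⟨s(Sum.inl ⟨i, hi⟩, Sum.inl ⟨(i + 1) % m, Nat.mod_lt _ (by omega)⟩), hadj⟩, ?_⟩
      show K - (f i + f ((i + 1) % m)) = L
      omega
    · have hadj : G.Adj (Sum.inr ⟨i, hi⟩) (Sum.inr ⟨(i + 1) % n, Nat.mod_lt _ (by omega)⟩) :=
        sum_adj_inr.2 (cycleGraph_adj_succ n hn i hi)
      refine ⟨Sum.inr ⟨s(Sum.inr ⟨i, hi⟩, Sum.inr ⟨(i + 1) % n, Nat.mod_lt _ (by omega)⟩), hadj⟩, ?_⟩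
      show K - (g i + g ((i + 1) % n)) = L
      omega
  have hfin : Finite ((Fin m ⊕ Fin n) ⊕ G.edgeSet) := inferInstance
  have : Fintype ((Fin m ⊕ Fin n) ⊕ G.edgeSet) := Fintype.ofFinite _
  have hcard2 : Fintype.card ((Fin m ⊕ Fin n) ⊕ G.edgeSet) = 2 * (m + n) := by
    rw [← Nat.card_eq_fintype_card, Nat.card_sum, hcard]
  have himg : Finset.univ.image lam = Finset.Icc 1 (2 * (m + n)) := by
    symm
    apply Finset.eq_of_subset_of_card_le
    · intro L hL
      obtain ⟨x, hx⟩ := hsurj (by simpa using hL)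
      exact Finset.mem_image.2 ⟨x, Finset.mem_univ _, hx⟩
    · refine Finset.card_image_le.trans ?_
      rw [Finset.card_univ, hcard2, Nat.card_Icc]
      omega
  have hinj : Function.Injective lam := by
    have : (Finset.univ.image lam).card = (Finset.univ : Finset ((Fin m ⊕ Fin n) ⊕ G.edgeSet)).card
        := by
      rw [himg, Nat.card_Icc, Finset.card_univ, hcard2]
      omega
    have h2 := Finset.card_image_iff.1 this
    intro x y hxy
    exact h2 (by simp) (by simp) hxy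
  have hmem : ∀ x, lam x ∈ Set.Icc 1 (2 * (m + n)) := by
    intro x
    have : lam x ∈ Finset.univ.image lam := Finset.mem_image_of_mem _ (Finset.mem_univ _)
    rw [himg] at this
    simpa using this
  refine ⟨lam, ⟨?_, ?_, ?_⟩, K, ?_⟩
  · intro x _
    rw [hcard]
    exact hmem x
  · exact hinj.injOn
  · rw [hcard]
    intro L hL
    obtain ⟨x, hx⟩ := hsurj hL
    exact ⟨x, trivial, hx⟩
  · intro x y hxy
    have h1 := hmem (Sum.inr ⟨s(x, y), hxy⟩)
    have h2 : lam (Sum.inr ⟨s(x, y), hxy⟩) = K - (lv x + lv y) := rfl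
    have h3 : lam (Sum.inl x) = lv x := rfl
    have h4 : lam (Sum.inl y) = lv y := rfl
    have h5 := h1.1
    rw [h2] at h5 ⊢
    rw [h3, h4]
    omega

/-- The covering criterion without remainders. -/
theorem emt_of_cover' (m n K : ℕ) (hm : 3 ≤ m) (hn : 3 ≤ n) (f g : ℕ → ℕ)
    (h : ∀ L, 1 ≤ L → L ≤ 2 * (m + n) →
      (∃ i < m, f i = L) ∨ (∃ i < n, g i = L) ∨
      (∃ i, i + 1 < m ∧ f i + f (i + 1) + L = K) ∨ (∃ i, i + 1 < n ∧ g i + g (i + 1) + L = K) ∨
      f (m - 1) + f 0 + L = K ∨ g (n - 1) + g 0 + L = K) :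
    IsEdgeMagicTotal (cycleGraph m ⊕g cycleGraph n) := by
  apply emt_of_cover m n K hm hn f g
  intro L h1 h2
  rcases h L h1 h2 with h | h | ⟨i, hi, h⟩ | ⟨i, hi, h⟩ | h | h
  · exact Or.inl h
  · exact Or.inr (Or.inl h)
  · exact Or.inr (Or.inr (Or.inl ⟨i, by omega, by rw [Nat.mod_eq_of_lt hi]; exact h⟩))
  · exact Or.inr (Or.inr (Or.inr ⟨i, by omega, by rw [Nat.mod_eq_of_lt hi]; exact h⟩))
  · refine Or.inr (Or.inr (Or.inl ⟨m - 1, by omega, ?_⟩))
    rw [Nat.sub_add_cancel (by omega), Nat.mod_self]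
    exact h
  · refine Or.inr (Or.inr (Or.inr ⟨n - 1, by omega, ?_⟩))
    rw [Nat.sub_add_cancel (by omega), Nat.mod_self]
    exact h

end Pool.Agent.Helper71.EMT
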